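import Pool.Agent.H317.GI.Stm
import Pool.Graph.R_pool_sql_team_seeded_707910d6.Results.MP_a2a22c_al.UnipotentRankTwo

/-!
# Project GI: task UR2
-/

set_option autoImplicit false

namespace Pool.Agent.H324.GI

open Pool.Agent.H317.GR Pool.Agent.H317.GH Pool.Agent.H317.GI

/-- Two commuting unipotents without common powers in the image of a profinitely dense
representation: the group is `SL_3(ℤ)`. -/
theorem ur2 : S_UR2 := by
  intro Λ _ σ hσ hd x y hx hy hx3 hy3 hxy hne
  have h : σ.range = ⊤ :=
    (Pool.Agent.Results.MP_a2a22c_al.UnipotentRankTwo.result σ.range x y hx hy hx3 hy3 hxy hne).2 hd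
  exact ⟨MulEquiv.ofBijective σ ⟨hσ, MonoidHom.range_eq_top.1 h⟩⟩

end Pool.Agent.H324.GI
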